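import Pool.Agent.Y607.PC.Main2

/-!
# The number of 4-colourings of planar graphs cannot be approximated within `2 ^ (n ^ (1 - δ))`

Stronger form of `NoFPRAS` (an FPRAS would give `RP = NP`): even an approximation within the factor
`2 ^ (n ^ (1 - δ))`, where `n` is the number of vertices and `δ > 0` is as small as one likes, is
impossible in randomised polynomial time unless `RP = NP`, and in deterministic polynomial time
unless `P = NP`.  All languages in `NP` have many-one reductions to the problem with such a gap.

Graphs (`Gr`, `IsPlanar`, `numCol`) and FPRAS (`HasFPRASOn`) are defined in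
`Pool/Agent/H49R2/PC/Defs.lean`; `HasApproxOn`, `HasDetApproxOn` and the factor `fac δ n` are
defined in `Pool/Agent/Y607/PC/Defs.lean`; the classes `P`, `NP`, `RP` and polynomial time are
defined in `Pool/Agent/NPC/Defs.lean`, `Pool/Agent/NPC/Classes.lean` and
`Pool/Agent/H579R2/Spt/Defs.lean`.

## Idea of the proof

In the construction of `NoFPRAS` (wheels on the triangular lattice with soft spokes, bundles of
paths of length 2) all multiplicities are multiples of a parameter `t`.  If the formula is
satisfiable then the number of colourings is at least a threshold `T`, otherwise it is at most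
`T / 4 ^ (t + 1)`, for every `t` from the number of vertices of the wheels on.  The number of
vertices of the graph is at most `t` times a polynomial `M` in the size of the formula.  For
`t = M ^ (K + 1)` with `K + 2 ≥ 1 / δ` the number `n` of vertices is at most `M ^ (K + 2)`, so that
`n ^ (1 - δ) ≤ t`.
-/

namespace Pool.Agent.Results.MP_20b771_lc.SubexponentialFactor

open Pool.Agent.NPC Pool.Agent.H49R2.PC Pool.Agent.H579R2.Spt Pool.Agent.Y607.PC

/-- **Main theorem.** Let `0 < δ ≤ 1`.
(1) If the number of 4-colourings of planar graphs with `n` vertices has a randomised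
polynomial-time approximation within the factor `2 ^ (n ^ (1 - δ))`, then `RP = NP`.
(2) If it has a deterministic one, then `P = NP`.
(3) An FPRAS is an approximation as in (1); so (1) contains the theorem on FPRAS.
(4) For every language `L` in `NP` there are polynomial-time computable planar graphs `g x` and
thresholds `T x` such that `g x` has at least `T x` 4-colourings if `x ∈ L`, and less than
`T x / 2 ^ (n ^ (1 - δ))` if `x ∉ L`, where `n` is the number of vertices of `g x`. -/
theorem result (δ : ℝ) (h0 : 0 < δ) (h1 : δ ≤ 1) :
    (HasApproxOn IsPlanar (numCol 4) (fun n => (2 : ℝ) ^ ((n : ℝ) ^ (1 - δ))) →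
      ∀ L : Set (List Bool), InRP L ↔ InNP L) ∧
    (HasDetApproxOn IsPlanar (numCol 4) (fun n => (2 : ℝ) ^ ((n : ℝ) ^ (1 - δ))) →
      ∀ L : Set (List Bool), InP L ↔ InNP L) ∧
    (HasFPRASOn IsPlanar (numCol 4) →
      HasApproxOn IsPlanar (numCol 4) (fun n => (2 : ℝ) ^ ((n : ℝ) ^ (1 - δ)))) ∧
    ∀ L : Set (List Bool), InNP L → ∃ (g : List Bool → Gr) (T : List Bool → ℕ),
      PolyTime (fun x => bits (g x)) ∧ PolyTime (fun x => bits (T x)) ∧ ∀ x,
        IsPlanar (g x) ∧ (x ∈ L → T x ≤ numCol 4 (g x)) ∧
        (x ∉ L → (2 : ℝ) ^ (((g x).1.length : ℝ) ^ (1 - δ)) * numCol 4 (g x) < T x) :=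
  ⟨rp_eq_np δ h0 h1, p_eq_np δ h0 h1, of_fpras δ h1 IsPlanar (numCol 4), gap δ h0 h1⟩

end Pool.Agent.Results.MP_20b771_lc.SubexponentialFactor
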